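import Mathlib

/-! CPC: words of letters in `R × ℕ`, finite words carrying a point of `R`, infinite words carrying
a point of `R`. -/

set_option autoImplicit false

open Topology Filter Set

namespace Pool.Agent.Helper18.CPC

universe u

/-- A point: a word `τ` (finite or infinite) over the letters `R × ℕ` together with `r : R`. -/
@[ext] structure Pt (R : Type u) where
  τ : ℕ → Option (R × ℕ)
  r : R
  per : ∀ n, τ n = none → τ (n + 1) = none

/-- The parameters of the construction: a base point and a letter for each infinite word. -/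
class Data (R : Type u) where
  z : R
  j : (ℕ → R × ℕ) → R × ℕ

variable {R : Type u}

/-- The cone of a finite word. -/
def D (s : List (R × ℕ)) : Set (Pt R) := {p | ∀ i < s.length, p.τ i = s[i]?}

/-- The `R`-value read at the position `n`. -/
def val (n : ℕ) (p : Pt R) : R := (p.τ n).elim p.r Prod.fst

open Classical in
noncomputable def dch (s : List (R × ℕ)) (p : Pt R) : Bool := decide (p ∈ D s)

open Classical in
noncomputable def F [Data R] (s : List (R × ℕ)) (p : Pt R) : R :=
  if p ∈ D s then val s.length p else Data.z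

open Classical in
noncomputable def G [Data R] (w : ℕ → R × ℕ) (p : Pt R) : R :=
  if h : ∃ n, p.τ n ≠ some (w n) then
    (if p.τ (Nat.find h) = some (Data.j w) then val (Nat.find h + 1) p else Data.z)
  else p.r

def fin (s : List (R × ℕ)) (r : R) : Pt R where
  τ := fun i => s[i]?
  r := r
  per := by
    intro n h
    rw [List.getElem?_eq_none_iff] at h ⊢
    omega

def inf (w : ℕ → R × ℕ) (r : R) : Pt R where
  τ := fun i => some (w i)
  r := r
  per := by
    intro n h
    simp at h

/-- The first `n` letters of an infinite word. -/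
def pre (w : ℕ → R × ℕ) (n : ℕ) : List (R × ℕ) := (List.range n).map w

noncomputable def code [Data R] (p : Pt R) :
    (List (R × ℕ) → Bool) × (List (R × ℕ) → R) × ((ℕ → R × ℕ) → R) :=
  (fun s => dch s p, fun s => F s p, fun w => G w p)

/-- The topology of the space of all points. -/
noncomputable instance instTop [TopologicalSpace R] [Data R] : TopologicalSpace (Pt R) :=
  TopologicalSpace.induced code inferInstance

/-! ### basic lemmas -/

@[simp] theorem length_pre (w : ℕ → R × ℕ) (n : ℕ) : (pre w n).length = n := by simp [pre]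

theorem pre_getElem? (w : ℕ → R × ℕ) {n i : ℕ} (h : i < n) : (pre w n)[i]? = some (w i) := by
  simp [pre, h]

theorem pre_succ (w : ℕ → R × ℕ) (n : ℕ) : pre w (n + 1) = pre w n ++ [w n] := by
  simp [pre, List.range_succ]

@[simp] theorem fin_τ (s : List (R × ℕ)) (r : R) (i : ℕ) : (fin s r).τ i = s[i]? := rfl
@[simp] theorem fin_r (s : List (R × ℕ)) (r : R) : (fin s r).r = r := rfl
@[simp] theorem inf_τ (w : ℕ → R × ℕ) (r : R) (i : ℕ) : (inf w r).τ i = some (w i) := rfl
@[simp] theorem inf_r (w : ℕ → R × ℕ) (r : R) : (inf w r).r = r := rfl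

theorem mem_D {s : List (R × ℕ)} {p : Pt R} : p ∈ D s ↔ ∀ i < s.length, p.τ i = s[i]? := Iff.rfl

@[simp] theorem D_nil : D ([] : List (R × ℕ)) = univ := by
  ext p; simp [mem_D]

theorem mem_D_append {s t : List (R × ℕ)} {p : Pt R} :
    p ∈ D (s ++ t) ↔ p ∈ D s ∧ ∀ i < t.length, p.τ (s.length + i) = t[i]? := by
  constructor
  · intro h
    refine ⟨fun i hi => ?_, fun i hi => ?_⟩
    · have := h i (by simp; omega)
      rwa [List.getElem?_append_left hi] at this
    · have := h (s.length + i) (by simp; omega)
      rwa [List.getElem?_append_right (by omega), Nat.add_sub_cancel_left] at this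
  · rintro ⟨h1, h2⟩ i hi
    by_cases h : i < s.length
    · rw [List.getElem?_append_left h]; exact h1 i h
    · have h3 := h2 (i - s.length) (by simp at hi; omega)
      rw [List.getElem?_append_right (by omega), ← h3]
      congr 1; omega

theorem mem_D_snoc {s : List (R × ℕ)} {c : R × ℕ} {p : Pt R} :
    p ∈ D (s ++ [c]) ↔ p ∈ D s ∧ p.τ s.length = some c := by
  rw [mem_D_append]
  simp

theorem mem_D_pre {w : ℕ → R × ℕ} {n : ℕ} {p : Pt R} :
    p ∈ D (pre w n) ↔ ∀ i < n, p.τ i = some (w i) := by
  rw [mem_D, length_pre]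
  constructor
  · intro h i hi
    rw [h i hi, pre_getElem? w hi]
  · intro h i hi
    rw [h i hi, pre_getElem? w hi]

@[simp] theorem fin_mem_D (s : List (R × ℕ)) (r : R) : fin s r ∈ D s := fun _ _ => rfl

theorem val_some {n : ℕ} {p : Pt R} {c : R × ℕ} (h : p.τ n = some c) : val n p = c.1 := by
  simp [val, h]

theorem val_none {n : ℕ} {p : Pt R} (h : p.τ n = none) : val n p = p.r := by
  simp [val, h]

theorem τ_none {p : Pt R} {n m : ℕ} (h : p.τ n = none) (hm : n ≤ m) : p.τ m = none := by
  induction m, hm using Nat.le_induction with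
  | base => exact h
  | succ m _ ih => exact p.per m ih

theorem F_mem [Data R] {s : List (R × ℕ)} {p : Pt R} (h : p ∈ D s) : F s p = val s.length p := by
  simp [F, h]

theorem F_not_mem [Data R] {s : List (R × ℕ)} {p : Pt R} (h : p ∉ D s) : F s p = Data.z := by
  simp [F, h]

@[simp] theorem F_fin [Data R] (s : List (R × ℕ)) (r : R) : F s (fin s r) = r := by
  rw [F_mem (fin_mem_D s r), val_none (by simp)]; rfl

theorem G_all [Data R] {w : ℕ → R × ℕ} {p : Pt R}
    (h : ∀ n, p.τ n = some (w n)) : G w p = p.r := by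
  unfold G
  rw [dif_neg]
  push Not
  exact h

@[simp] theorem G_inf [Data R] (w : ℕ → R × ℕ) (r : R) :
    G w (inf w r) = r := G_all (fun _ => rfl)

open Classical in
theorem G_at [Data R] {w : ℕ → R × ℕ} {p : Pt R} {n : ℕ}
    (h1 : ∀ i < n, p.τ i = some (w i)) (h2 : p.τ n ≠ some (w n)) :
    G w p = if p.τ n = some (Data.j w) then val (n + 1) p else Data.z := by
  have h : ∃ n, p.τ n ≠ some (w n) := ⟨n, h2⟩
  have hn : Nat.find h = n := by
    rw [Nat.find_eq_iff]
    exact ⟨h2, fun m hm => by simpa using h1 m hm⟩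
  unfold G
  rw [dif_pos h, hn]

theorem G_at_pos [Data R] {w : ℕ → R × ℕ} {p : Pt R} {n : ℕ}
    (h1 : ∀ i < n, p.τ i = some (w i)) (h2 : p.τ n ≠ some (w n)) (h3 : p.τ n = some (Data.j w)) :
    G w p = val (n + 1) p := by
  rw [G_at h1 h2, if_pos h3]

theorem G_at_neg [Data R] {w : ℕ → R × ℕ} {p : Pt R} {n : ℕ}
    (h1 : ∀ i < n, p.τ i = some (w i)) (h2 : p.τ n ≠ some (w n)) (h3 : p.τ n ≠ some (Data.j w)) :
    G w p = Data.z := by
  rw [G_at h1 h2, if_neg h3]

/-- Every point is `fin s r` or `inf w r`. -/
theorem cases_pt (p : Pt R) : (∃ s, p = fin s p.r) ∨ ∃ w, p = inf w p.r := by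
  by_cases h : ∃ n, p.τ n = none
  · left
    classical
    let n := Nat.find h
    have hn : p.τ n = none := Nat.find_spec h
    have hlt : ∀ i, i < n → p.τ i ≠ none := fun i hi => Nat.find_min h hi
    have hex : ∀ i : Fin n, ∃ c, p.τ i = some c := fun i => Option.ne_none_iff_exists'.1 (hlt i i.2)
    choose c hc using hex
    refine ⟨List.ofFn c, ?_⟩
    ext1
    · funext i
      by_cases hi : i < n
      · simp [hi, hc ⟨i, hi⟩]
      · rw [τ_none hn (not_lt.1 hi)]
        simp [hi]
    · rfl
  · right
    push Not at h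
    choose w hw using fun n => Option.ne_none_iff_exists'.1 (h n)
    exact ⟨w, by ext1 <;> [exact funext hw; rfl]⟩

section top

variable [TopologicalSpace R] [Data R]

theorem continuous_code : Continuous (code (R := R)) := continuous_induced_dom

theorem continuous_F (s : List (R × ℕ)) : Continuous (fun p : Pt R => F s p) :=
  (continuous_apply s).comp (continuous_fst.comp (continuous_snd.comp continuous_code))

theorem continuous_G (w : ℕ → R × ℕ) : Continuous (fun p : Pt R => G w p) :=
  (continuous_apply w).comp (continuous_snd.comp (continuous_snd.comp continuous_code))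

theorem continuous_dch (s : List (R × ℕ)) : Continuous (fun p : Pt R => dch s p) :=
  (continuous_apply s).comp (continuous_fst.comp continuous_code)

theorem isClopen_D (s : List (R × ℕ)) : IsClopen (D s : Set (Pt R)) := by
  have h : (D s : Set (Pt R)) = (fun p : Pt R => dch s p) ⁻¹' {true} := by
    ext p; simp [dch]
  rw [h]
  exact (isClopen_discrete _).preimage (continuous_dch s)

/-- Convergence is tested by the coordinates. -/
theorem le_nhds_iff {l : Filter (Pt R)} {p : Pt R} :
    l ≤ 𝓝 p ↔ (∀ s : List (R × ℕ), ∀ᶠ q in l, (q ∈ D s ↔ p ∈ D s)) ∧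
      (∀ s : List (R × ℕ), Tendsto (fun q : Pt R => F s q) l (𝓝 (F s p))) ∧
      (∀ w : ℕ → R × ℕ, Tendsto (fun q : Pt R => G w q) l (𝓝 (G w p))) := by
  have h1 : 𝓝 p = comap code (𝓝 (code p)) := nhds_induced _ _
  rw [h1, ← tendsto_iff_comap, nhds_prod_eq, nhds_prod_eq, tendsto_prod_iff', tendsto_prod_iff']
  refine and_congr ?_ (and_congr ?_ ?_)
  · rw [tendsto_pi_nhds]
    refine forall_congr' fun s => ?_
    simp only [nhds_discrete, tendsto_pure, code]
    refine eventually_congr (Eventually.of_forall fun q => ?_)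
    simp [dch]
  · rw [tendsto_pi_nhds]; rfl
  · rw [tendsto_pi_nhds]; rfl

/-- Continuity of a map into the space is tested by the coordinates. -/
theorem continuous_iff {Y : Type*} [TopologicalSpace Y] {f : Y → Pt R} :
    Continuous f ↔ (∀ s : List (R × ℕ), Continuous fun y => dch s (f y)) ∧
      (∀ s : List (R × ℕ), Continuous fun y => F s (f y)) ∧
      (∀ w : ℕ → R × ℕ, Continuous fun y => G w (f y)) := by
  rw [continuous_induced_rng, continuous_prodMk, continuous_prodMk, continuous_pi_iff, continuous_pi_iff,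
    continuous_pi_iff]
  rfl

end top

end Pool.Agent.Helper18.CPC
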