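import Pool.Agent.Helper18.CPC.St
import Pool.Agent.Helper37.TO.Final
import Pool.Agent.Helper36.CPC.M_CP
import Pool.Agent.Helper44.CPC.M_SE
import Pool.Agent.Helper47.CPC.M_IN
import Pool.Agent.Helper80.CPC.M_PC
import Pool.Agent.Helper53.CPC.M_PR
import Pool.Agent.Helper16.CPC.M_FN
import Pool.Agent.Helper85.CPC.M_EM
import Pool.Agent.Helper2.CPC.M_MO
import Pool.Agent.Helper6.CPC.M_JX

/-! CPC: the space of words, assembled. -/

set_option autoImplicit false

open N4f246296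
open TopologicalSpace Topology Filter Set

namespace Pool.Agent.Helper18.CPC

universe u

theorem not_countablyGenerated_snd {K : Type*} {T : Type*} [TopologicalSpace K] [TopologicalSpace T]
    (h : ∀ t : T, ¬ (𝓝 t).IsCountablyGenerated) (y : K × T) : ¬ (𝓝 y).IsCountablyGenerated := by
  intro h1
  apply h y.2
  have h2 : map Prod.snd (𝓝 y) = 𝓝 y.2 := by
    obtain ⟨a, b⟩ := y
    exact map_snd_nhds (a, b)
  rw [← h2]
  infer_instance

theorem not_countablyGenerated_pi {Y : Type*} [TopologicalSpace Y]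
    (h : ∀ y : Y, ¬ (𝓝 y).IsCountablyGenerated) (r : ℕ → Y) : ¬ (𝓝 r).IsCountablyGenerated := by
  intro h1
  apply h (r 0)
  have h2 : map (Function.eval 0) (𝓝 r) = 𝓝 (r 0) :=
    (isOpenMap_eval (X := fun _ : ℕ => Y) 0).map_nhds_eq (continuous_apply 0).continuousAt
  rw [← h2]
  infer_instance

theorem infinite_of_not_countablyGenerated {T : Type*} [TopologicalSpace T] [T2Space T] (t : T)
    (h : ¬ (𝓝 t).IsCountablyGenerated) : Infinite T := by
  by_contra hf
  rw [not_infinite_iff_finite] at hf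
  haveI : DiscreteTopology T := Finite.instDiscreteTopology
  apply h
  rw [nhds_discrete]
  infer_instance

theorem final (K : Type u) [TopologicalSpace K] [Nonempty K] [T2Space K] [CompactSpace K]
    (hK : CountablyMonolithicSpace K) :
    ∃ (X : Type u) (_ : TopologicalSpace X), T2Space X ∧ CompactSpace X ∧
      CountablyMonolithicSpace X ∧
      (TotallyDisconnectedSpace K → TotallyDisconnectedSpace X) ∧
      (∀ x : X, ¬ (𝓝 x).IsCountablyGenerated) ∧
      (∀ x : X, ∃ V : ℕ → Set X, (∀ n, IsClopen (V n) ∧ (V n).Nonempty) ∧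
        ∀ U ∈ 𝓝 x, ∀ᶠ n in atTop, V n ⊆ U) ∧
      ∃ (i : K → X) (ρ : X → K), Continuous i ∧ Continuous ρ ∧ ∀ k, ρ (i k) = k := by
  have hCP' := Pool.Agent.Helper36.CPC.m_CP.{u} Pool.Agent.Helper16.CPC.m_FN
    Pool.Agent.Helper47.CPC.m_IN
  have hSE' := Pool.Agent.Helper44.CPC.m_SE.{u}
  have hEM' := Pool.Agent.Helper85.CPC.m_EM.{u}
  have hPC' := Pool.Agent.Helper80.CPC.m_PC.{u} Pool.Agent.Helper16.CPC.m_FN
    Pool.Agent.Helper47.CPC.m_IN
  have hMO' := Pool.Agent.Helper2.CPC.m_MO.{u} hSE'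
  have hPR' := Pool.Agent.Helper53.CPC.m_PR.{u, 0}
  have hJX' := Pool.Agent.Helper6.CPC.m_JX.{u}
  obtain ⟨T, tT, h2, hc, htd, hm, hn, ⟨t0, -⟩, -⟩ := Pool.Agent.Helper37.TO.final
  haveI : Infinite T := infinite_of_not_countablyGenerated t0 (hn t0)
  haveI : Infinite (K × T) := inferInstance
  haveI hKT : CountablyMonolithicSpace (K × T) := hPR'.1 K T hK hm
  haveI hR : CountablyMonolithicSpace (ℕ → K × T) := hPR'.2 (K × T) hKT
  obtain ⟨j, hj1, hj2⟩ := hJX' (K × T)
  obtain ⟨k0⟩ := ‹Nonempty K›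
  letI : Data (ℕ → K × T) := ⟨fun _ => (k0, t0), j⟩
  have hcomp : CompactSpace (Pt (ℕ → K × T)) := hCP' (ℕ → K × T)
  obtain ⟨hse1, hse2, -⟩ := hSE' (ℕ → K × T)
  obtain ⟨hem1, hem2, hem3⟩ := hEM' (ℕ → K × T)
  refine ⟨Pt (ℕ → K × T), inferInstance, hse1, hcomp, hMO' (ℕ → K × T) hcomp hR hj1, ?_, ?_,
    hPC' (ℕ → K × T) hj2, ?_⟩
  · intro hKd
    exact hse2 inferInstance
  · exact hem3 (not_countablyGenerated_pi (not_countablyGenerated_snd hn))
  · refine ⟨fun k => fin [] (fun _ => (k, t0)), fun p => (F [] p 0).1, ?_, ?_, ?_⟩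
    · exact (hem1 []).comp (by fun_prop)
    · exact continuous_fst.comp ((continuous_apply 0).comp (continuous_F []))
    · intro k
      simp only [F_fin]

end Pool.Agent.Helper18.CPC
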