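import Pool.Agent.Helper18.CPC.Defs
import Pool.Prelude.Def_F_057ad941

/-! CPC: statements of the modules. -/

set_option autoImplicit false

open N4f246296
open TopologicalSpace Topology Filter Set

namespace Pool.Agent.Helper18.CPC

universe u v

/-- A compact space with a countable point-separating family of continuous maps to metrizable
spaces is metrizable. -/
theorem metrizable_of_countable_family {Z : Type*} [TopologicalSpace Z] [CompactSpace Z]
    {ι : Type*} [Countable ι] {M : ι → Type*} [∀ i, TopologicalSpace (M i)]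
    [∀ i, MetrizableSpace (M i)] (f : ∀ i, Z → M i) (hf : ∀ i, Continuous (f i))
    (hs : ∀ a b, (∀ i, f i a = f i b) → a = b) : MetrizableSpace Z := by
  have h1 : Continuous (fun (a : Z) (i : ι) => f i a) := continuous_pi hf
  have h2 : Function.Injective (fun (a : Z) (i : ι) => f i a) :=
    fun a b h => hs a b fun i => congrFun h i
  haveI : MetrizableSpace (∀ i, M i) := by
    letI : ∀ i, MetricSpace (M i) := fun i => metrizableSpaceMetric (M i)
    exact UniformSpace.metrizableSpace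
  exact (h1.isClosedEmbedding h2).isEmbedding.metrizableSpace

def hFN : Prop := ∀ (R : Type u) [TopologicalSpace R] [Data R] (l : Filter (Pt R))
  (s : List (R × ℕ)) (r : R), D s ∈ l → (∀ c : R × ℕ, (D (s ++ [c]))ᶜ ∈ l) →
  Tendsto (fun q : Pt R => val s.length q) l (𝓝 r) → l ≤ 𝓝 (fin s r)

def hIN : Prop := ∀ (R : Type u) [TopologicalSpace R] [Data R] (l : Filter (Pt R))
  (w : ℕ → R × ℕ) (x : R), (∀ n, D (pre w n) ∈ l) →
  Tendsto (fun q : Pt R => G w q) l (𝓝 x) → l ≤ 𝓝 (inf w x)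

def hCP : Prop := ∀ (R : Type u) [TopologicalSpace R] [Data R] [CompactSpace R],
  CompactSpace (Pt R)

def hSE : Prop := ∀ (R : Type u) [TopologicalSpace R] [Data R] [T2Space R],
  T2Space (Pt R) ∧ (TotallyDisconnectedSpace R → TotallyDisconnectedSpace (Pt R)) ∧
  ∀ p q : Pt R, p.τ ≠ q.τ → ∃ s : List (R × ℕ), (p ∈ D s ∧ q ∉ D s) ∨ (q ∈ D s ∧ p ∉ D s)

def hEM : Prop := ∀ (R : Type u) [TopologicalSpace R] [Data R],
  (∀ s : List (R × ℕ), Continuous (fun r : R => fin s r)) ∧
  (∀ w : ℕ → R × ℕ, Continuous (fun r : R => inf w r)) ∧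
  ((∀ r : R, ¬ (𝓝 r).IsCountablyGenerated) → ∀ p : Pt R, ¬ (𝓝 p).IsCountablyGenerated)

def hPC : Prop := ∀ (R : Type u) [TopologicalSpace R] [Data R],
  (∀ w : ℕ → R × ℕ, ∃ᶠ n in atTop, w n ≠ Data.j w) →
  ∀ p : Pt R, ∃ V : ℕ → Set (Pt R), (∀ n, IsClopen (V n) ∧ (V n).Nonempty) ∧
    ∀ U ∈ 𝓝 p, ∀ᶠ n in atTop, V n ⊆ U

def hMO : Prop := ∀ (R : Type u) [TopologicalSpace R] [Data R] [T2Space R],
  CompactSpace (Pt R) → CountablyMonolithicSpace R →
  Function.Injective (Data.j : (ℕ → R × ℕ) → R × ℕ) → CountablyMonolithicSpace (Pt R)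

def hPR : Prop :=
  (∀ (K : Type u) (T : Type v) [TopologicalSpace K] [TopologicalSpace T] [CompactSpace K]
    [T2Space K] [CompactSpace T] [T2Space T], CountablyMonolithicSpace K →
    CountablyMonolithicSpace T → CountablyMonolithicSpace (K × T)) ∧
  (∀ (Y : Type u) [TopologicalSpace Y] [CompactSpace Y] [T2Space Y],
    CountablyMonolithicSpace Y → CountablyMonolithicSpace (ℕ → Y))

def hJX : Prop := ∀ (Y : Type u) [Infinite Y],
  ∃ j : (ℕ → (ℕ → Y) × ℕ) → (ℕ → Y) × ℕ, Function.Injective j ∧ ∀ w, ∃ᶠ n in atTop, w n ≠ j w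

end Pool.Agent.Helper18.CPC
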